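import Mathlib
import Pool.Agent.V11259.FibCount

/-!
# MP_0deb22: shifts of the Fibonacci-Thue-Morse sequence with few states

For `c = F_k` the two words `00010010101000` and `00010101001000` cannot be told apart inside any
prefix, whatever the position of the Fibonacci number that is added; hence the number of residuals
of the sequence shifted by `F_k` is at most a constant times the number of words without the first
of these words as an aligned block, which is a power smaller than one of `F_k`.
-/

namespace Pool.Agent.Results.MP_0deb22_lc.SublinearShifts

open V11259.FibWord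

/-- The least number of states of a Fibonacci-DFAO generating the sequence `(t(i + c))_i`. -/
noncomputable def S (c : ℕ) : ℕ := states (fun i => ftm (i + c))

/-- **It is not the case that `S(c) ≥ κ c` for all large `c` and some `κ > 0`.** More precisely,
there are `d > 0` and `C` such that for infinitely many `c` the shift by `c` of the
Fibonacci-Thue-Morse sequence is generated by a Fibonacci-DFAO with at most `C c^(1-d)` states. -/
theorem result :
    (¬ ∃ κ : ℝ, 0 < κ ∧ ∃ c0 : ℕ, ∀ c : ℕ, c0 ≤ c → κ * c ≤ S c) ∧
    ∃ d C : ℝ, 0 < d ∧ ∀ N : ℕ, ∃ c : ℕ, N ≤ c ∧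
      ∃ n : ℕ, (n : ℝ) ≤ C * (c : ℝ) ^ (1 - d) ∧
        ∃ M : FibDFAO n, M.Generates (fun i => ftm (i + c)) :=
  ⟨not_linear, power_saving⟩

end Pool.Agent.Results.MP_0deb22_lc.SublinearShifts
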